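import Pool.Agent.Y214.CY.Stm

/-!
Project CY: orthogonal basis of `ℚ_p^n` for an anisotropic cubic form.
-/

set_option autoImplicit false

namespace Pool.Agent.Y759.CY

open Pool.Agent.Y214.CY Filter Topology

variable {p : ℕ} [Fact p.Prime] {n : ℕ}

theorem cub_smul (t : Fin n → Fin n → Fin n → ℚ_[p]) (c : ℚ_[p]) (x : Fin n → ℚ_[p]) :
    cub t (c • x) = c ^ 3 * cub t x := by
  unfold cub
  rw [Finset.mul_sum]
  refine Finset.sum_congr rfl fun i _ => ?_
  rw [Finset.mul_sum]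
  refine Finset.sum_congr rfl fun j _ => ?_
  rw [Finset.mul_sum]
  refine Finset.sum_congr rfl fun k _ => ?_
  simp only [Pi.smul_apply, smul_eq_mul]
  ring

theorem cub_cont (t : Fin n → Fin n → Fin n → ℚ_[p]) :
    Continuous (fun x : Fin n → ℚ_[p] => cub t x) := by
  unfold cub
  refine continuous_finset_sum _ fun i _ => continuous_finset_sum _ fun j _ =>
    continuous_finset_sum _ fun k _ => ?_
  exact ((continuous_const.mul (continuous_apply i)).mul (continuous_apply j)).mul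
    (continuous_apply k)

theorem cub_zero (t : Fin n → Fin n → Fin n → ℚ_[p]) : cub t (0 : Fin n → ℚ_[p]) = 0 := by
  have h := cub_smul t 0 0
  rw [zero_smul] at h
  rw [h]
  ring

theorem norm_exists (x : Fin n → ℚ_[p]) (hx : x ≠ 0) : ∃ i, ‖x i‖ = ‖x‖ := by
  by_contra h
  push Not at h
  have h1 : ∀ i, ‖x i‖ < ‖x‖ := fun i => lt_of_le_of_ne (norm_le_pi_norm x i) (h i)
  have h2 := (pi_norm_lt_iff (norm_pos_iff.2 hx)).2 h1
  exact lt_irrefl _ h2

theorem norm_unit (x : Fin n → ℚ_[p]) (hx : x ≠ 0) : ∃ c : ℚ_[p], ‖c‖ = ‖x‖ ∧ ‖c⁻¹ • x‖ = 1 := by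
  obtain ⟨i, hi⟩ := norm_exists x hx
  refine ⟨x i, hi, ?_⟩
  rw [norm_smul, norm_inv, hi, inv_mul_cancel₀ (norm_ne_zero_iff.2 hx)]

theorem exists_delta (t : Fin n → Fin n → Fin n → ℚ_[p]) (ht : Aniso ℚ_[p] t) :
    ∃ δ : ℝ, 0 < δ ∧ ∀ x : Fin n → ℚ_[p], δ * ‖x‖ ^ 3 ≤ ‖cub t x‖ := by
  by_cases hne : (Metric.sphere (0 : Fin n → ℚ_[p]) 1).Nonempty
  · obtain ⟨y, hy, hmin⟩ := (isCompact_sphere (0 : Fin n → ℚ_[p]) 1).exists_isMinOn hne
      (cub_cont t).norm.continuousOn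
    have hy0 : y ≠ 0 := by
      rintro rfl
      rw [mem_sphere_zero_iff_norm, norm_zero] at hy
      exact zero_ne_one hy
    refine ⟨‖cub t y‖, norm_pos_iff.2 (ht y hy0), fun x => ?_⟩
    by_cases hx : x = 0
    · subst hx
      rw [norm_zero]
      simp
    · obtain ⟨c, hc1, hc2⟩ := norm_unit x hx
      have h2 : ‖cub t y‖ ≤ ‖cub t (c⁻¹ • x)‖ := hmin (mem_sphere_zero_iff_norm.2 hc2)
      rw [cub_smul, norm_mul, norm_pow, norm_inv, hc1] at h2
      have h3 : ‖x‖ ≠ 0 := norm_ne_zero_iff.2 hx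
      calc ‖cub t y‖ * ‖x‖ ^ 3 ≤ (‖x‖⁻¹ ^ 3 * ‖cub t x‖) * ‖x‖ ^ 3 :=
            mul_le_mul_of_nonneg_right h2 (by positivity)
        _ = ‖cub t x‖ := by field_simp
  · refine ⟨1, one_pos, fun x => ?_⟩
    by_cases hx : x = 0
    · subst hx
      rw [norm_zero]
      simp
    · exfalso
      obtain ⟨c, _, hc2⟩ := norm_unit x hx
      exact hne ⟨c⁻¹ • x, mem_sphere_zero_iff_norm.2 hc2⟩

theorem exists_min (t : Fin n → Fin n → Fin n → ℚ_[p]) (ht : Aniso ℚ_[p] t)
    (W : Submodule ℚ_[p] (Fin n → ℚ_[p])) (v : Fin n → ℚ_[p]) :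
    ∃ v' : Fin n → ℚ_[p], v' - v ∈ W ∧ ∀ w ∈ W, ‖cub t v'‖ ≤ ‖cub t (v' + w)‖ := by
  obtain ⟨δ, hδ, hδ2⟩ := exists_delta t ht
  have hcl : IsClosed {x : Fin n → ℚ_[p] | x - v ∈ W} :=
    (Submodule.closed_of_finiteDimensional W).preimage (continuous_id.sub continuous_const)
  obtain ⟨x, hx, hmin⟩ := (cub_cont t).norm.continuousOn.exists_isMinOn' hcl (x₀ := v)
    (by
      rw [Set.mem_setOf_eq, sub_self]
      exact W.zero_mem)
    (by
      apply Filter.Eventually.filter_mono inf_le_left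
      have h1 := (tendsto_norm_cocompact_atTop (E := Fin n → ℚ_[p])).eventually_ge_atTop
        (‖cub t v‖ / δ + 1)
      filter_upwards [h1] with y hy
      have h2 : 1 ≤ ‖y‖ := le_trans (le_add_of_nonneg_left (by positivity)) hy
      have h3 : ‖y‖ ≤ ‖y‖ ^ 3 := le_self_pow₀ h2 (by norm_num)
      calc ‖cub t v‖ = δ * (‖cub t v‖ / δ) := by field_simp
        _ ≤ δ * ‖y‖ ^ 3 := mul_le_mul_of_nonneg_left (by linarith) hδ.le
        _ ≤ _ := hδ2 y)
  refine ⟨x, hx, fun w hw => ?_⟩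
  have h4 : x + w ∈ {x : Fin n → ℚ_[p] | x - v ∈ W} := by
    rw [Set.mem_setOf_eq] at hx ⊢
    have : x + w - v = (x - v) + w := by abel
    rw [this]
    exact W.add_mem hx hw
  exact hmin h4

theorem exists_orth (h : S_ULT) (t : Fin n → Fin n → Fin n → ℚ_[p]) (ht : Aniso ℚ_[p] t) :
    ∀ m ≤ n, ∃ e : Fin m → (Fin n → ℚ_[p]), (∀ j, e j ≠ 0) ∧
      ∀ (a : Fin m → ℚ_[p]) (j : Fin m),
        ‖a j‖ ^ 3 * ‖cub t (e j)‖ ≤ ‖cub t (∑ i, a i • e i)‖ := by
  intro m
  induction m with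
  | zero =>
    intro _
    exact ⟨fun j => j.elim0, fun j => j.elim0, fun a j => j.elim0⟩
  | succ m ih =>
    intro hm
    obtain ⟨e, he0, heO⟩ := ih (by omega)
    set W : Submodule ℚ_[p] (Fin n → ℚ_[p]) := Submodule.span ℚ_[p] (Set.range e) with hWdef
    have hW : W ≠ ⊤ := by
      intro hW
      have h1 : Module.finrank ℚ_[p] W ≤ Fintype.card (Fin m) := finrank_range_le_card e
      rw [hW, finrank_top, Module.finrank_fin_fun, Fintype.card_fin] at h1
      omega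
    obtain ⟨v, hv⟩ : ∃ v, v ∉ W := by
      by_contra hcon
      push Not at hcon
      exact hW (eq_top_iff.2 fun x _ => hcon x)
    obtain ⟨v', hv', hmin⟩ := exists_min t ht W v
    have hv'W : v' ∉ W := by
      intro h1
      apply hv
      have h2 := W.sub_mem h1 hv'
      rwa [sub_sub_cancel] at h2
    refine ⟨Fin.snoc (α := fun _ => Fin n → ℚ_[p]) e v', ?_, ?_⟩
    · intro j
      refine Fin.lastCases ?_ (fun i => ?_) j
      · rw [Fin.snoc_last]
        intro h0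
        exact hv'W (h0 ▸ W.zero_mem)
      · rw [Fin.snoc_castSucc]
        exact he0 i
    · intro a
      rw [Fin.sum_univ_castSucc]
      simp only [Fin.snoc_castSucc, Fin.snoc_last]
      set w : Fin n → ℚ_[p] := ∑ i : Fin m, a i.castSucc • e i with hw0
      have hw : w ∈ W := Submodule.sum_mem _ fun i _ =>
        W.smul_mem _ (Submodule.subset_span ⟨i, rfl⟩)
      have hA : ‖a (Fin.last m)‖ ^ 3 * ‖cub t v'‖ ≤ ‖cub t (w + a (Fin.last m) • v')‖ := by
        by_cases hc : a (Fin.last m) = 0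
        · rw [hc, norm_zero, zero_pow (by norm_num), zero_mul]
          exact norm_nonneg _
        · have h1 := hmin ((a (Fin.last m))⁻¹ • w) (W.smul_mem _ hw)
          have h2 : w + a (Fin.last m) • v' =
              a (Fin.last m) • (v' + (a (Fin.last m))⁻¹ • w) := by
            rw [smul_add, smul_smul, mul_inv_cancel₀ hc, one_smul, add_comm]
          rw [h2, cub_smul, norm_mul, norm_pow]
          exact mul_le_mul_of_nonneg_left h1 (by positivity)
      intro j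
      refine Fin.lastCases ?_ (fun i => ?_) j
      · rw [Fin.snoc_last]
        exact hA
      · rw [Fin.snoc_castSucc]
        have h3 := heO (fun i => a i.castSucc) i
        have h4 := h p n t ht (w + a (Fin.last m) • v') ((-a (Fin.last m)) • v')
        have h5 : w + a (Fin.last m) • v' + (-a (Fin.last m)) • v' = w := by
          rw [neg_smul]
          abel
        rw [h5, cub_smul, norm_mul, norm_pow, norm_neg] at h4
        exact h3.trans (h4.trans (max_le le_rfl hA))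

/-- CY-ORTH -/
theorem t_ORTH (h : S_ULT) : S_ORTH := by
  intro p _ n t ht
  obtain ⟨e, he0, heO⟩ := exists_orth h t ht n le_rfl
  have hp0 : (p : ℝ) ≠ 0 := by
    exact_mod_cast (Fact.out : p.Prime).ne_zero
  have hpq : (p : ℚ_[p]) ≠ 0 := by
    exact_mod_cast (Fact.out : p.Prime).ne_zero
  -- scaling
  have hk : ∀ j, ∃ c : ℚ_[p], c ≠ 0 ∧ ∃ i : ℕ, i ≤ 2 ∧ ‖cub t (c • e j)‖ = ((p : ℝ) ^ i)⁻¹ := by
    intro j
    have h1 := Padic.norm_eq_zpow_neg_valuation (ht (e j) (he0 j))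
    set v := (cub t (e j)).valuation with hv
    have h2 : 0 ≤ v % 3 := Int.emod_nonneg v (by norm_num)
    have h3 : v % 3 < 3 := Int.emod_lt_of_pos v (by norm_num)
    refine ⟨(p : ℚ_[p]) ^ (-(v / 3)), zpow_ne_zero _ hpq, (v % 3).toNat, by omega, ?_⟩
    rw [cub_smul, norm_mul, norm_pow, Padic.norm_p_zpow, h1, neg_neg, ← zpow_natCast,
      ← zpow_natCast, ← zpow_mul, ← zpow_add₀ hp0, ← zpow_neg]
    congr 1
    rw [Int.toNat_of_nonneg h2]
    push_cast
    omega
  choose c hc0 k hk1 hk2 using hk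
  have hO : ∀ (a : Fin n → ℚ_[p]) (j : Fin n),
      ‖a j‖ ^ 3 * ‖cub t (c j • e j)‖ ≤ ‖cub t (∑ i, a i • c i • e i)‖ := by
    intro a j
    have h1 := heO (fun i => a i * c i) j
    have h2 : ∑ i, a i • c i • e i = ∑ i, (a i * c i) • e i :=
      Finset.sum_congr rfl fun i _ => smul_smul _ _ _
    rw [h2, cub_smul, norm_mul, norm_pow]
    refine le_trans (le_of_eq ?_) h1
    rw [norm_mul, mul_pow]
    ring
  refine ⟨fun j => c j • e j, ?_, hO, fun j => ⟨k j, hk1 j, hk2 j⟩⟩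
  rw [Fintype.linearIndependent_iff]
  intro g hg j
  have h1 := hO g j
  rw [hg, cub_zero, norm_zero] at h1
  have h2 : 0 < ‖cub t (c j • e j)‖ := norm_pos_iff.2 (ht _ (smul_ne_zero (hc0 j) (he0 j)))
  by_contra h3
  have h4 : 0 < ‖g j‖ := norm_pos_iff.2 h3
  have h5 : 0 < ‖g j‖ ^ 3 * ‖cub t (c j • e j)‖ := by positivity
  linarith

end Pool.Agent.Y759.CY
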